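import Mathlib
import Pool.Agent.H782.Am.Gen5

/-!
# The Ambrose conjecture

A complete connected Riemannian `n`-manifold is presented by an isometric immersion in a Euclidean
space (`CRM n ι`, in `Pool.Agent.H782.Am.Defs2`); `M₁` and `M₂` are moreover embedded (`inc M` is
the inclusion of `M`), which is no restriction, by Nash's theorem. Every definition used in the
statement is in `Pool.Agent.H782.Am.Defs2`, except that of a smooth submanifold of a Euclidean
space, `IsSubmanifold`, in `Pool.Agent.H782.Am.Defs`.

Outline of the proof.

1. `L`-relatedness, applied to small balls around the non-conjugate vectors, gives that `L`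
   carries the pullback of the metric of `M₁` by `exp` to the pullback of the metric of `M₂`, at
   the non-conjugate vectors and then, by density, everywhere.
2. Write `X` for the tangent space of `M₁` at `p₁`. Attach to `ξ` in `X` the triple
   `(exp ξ, exp (L ξ), L_ξ)`, where `L_ξ` is the isometry of tangent spaces given by parallel
   translation along the two geodesics, and let `S` be the set of these triples. `S` is closed
   under developing a second pair of geodesics issuing from a triple. This is proved by optimal
   control: minimise the energy of a control plus a large multiple of the distance of the endpoint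
   to the target, pass to the limit of discretised minimisers (this gives a solution of the
   Hamiltonian equations, without abnormal extremals), and show, with the conservation law of the
   rotation group and the equality of the curvature forms, that such an extremal is the pair of
   rays of a single vector.
3. Hence `S` is an integral leaf of the rolling distribution. With its leaf topology and the
   metric pulled back from `M₁` (which is also that pulled back from `M₂`), `S` is the required
   common Riemannian covering of `M₁` and `M₂`.
-/

set_option autoImplicit false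

open Pool.Agent.H782.Am

namespace Pool.Agent.Results.MP_35a9e6_gt.AmbroseConjecture

/-- **The Ambrose conjecture, in every dimension.** Let `M₁`, `M₂` be complete connected
Riemannian manifolds of dimension `n`, with base points `p₁`, `p₂`, which are `L`-related for a
linear isometry `L` from `T_{p₁}M₁` onto `T_{p₂}M₂`. Then there are a complete connected pointed
Riemannian manifold `(M, p)` of dimension `n`, linear isometries `Lᵢ` from `T_pM` onto `T_{pᵢ}Mᵢ`
and Riemannian coverings `πᵢ` from `M` to `Mᵢ` with `πᵢ ∘ exp_p = exp_{pᵢ} ∘ Lᵢ` and
`L ∘ L₁ = L₂`. -/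
theorem result {E₁ E₂ : Type} [NormedAddCommGroup E₁] [InnerProductSpace ℝ E₁]
    [FiniteDimensional ℝ E₁] [NormedAddCommGroup E₂] [InnerProductSpace ℝ E₂]
    [FiniteDimensional ℝ E₂] {n : ℕ} {M₁ : Set E₁} {M₂ : Set E₂} (h₁ : CRM n (inc M₁))
    (h₂ : CRM n (inc M₂)) (p₁ : M₁) (p₂ : M₂) (L : tan (inc M₁) p₁ → tan (inc M₂) p₂)
    (hL : IsIsoTan (inc M₁) (inc M₂) p₁ p₂ L) (hrel : LRelated (inc M₁) (inc M₂) p₁ p₂ L) :
    ∃ (M : Type) (_ : TopologicalSpace M) (ι : M → E₁) (p : M) (L₁ : tan ι p → tan (inc M₁) p₁)
      (L₂ : tan ι p → tan (inc M₂) p₂) (π₁ : M → M₁) (π₂ : M → M₂),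
      CRM n ι ∧ IsIsoTan ι (inc M₁) p p₁ L₁ ∧ IsIsoTan ι (inc M₂) p p₂ L₂ ∧
      IsRiemCover ι (inc M₁) π₁ ∧ IsRiemCover ι (inc M₂) π₂ ∧
      (∀ v, π₁ (rexp ι p v) = rexp (inc M₁) p₁ (L₁ v)) ∧
      (∀ v, π₂ (rexp ι p v) = rexp (inc M₂) p₂ (L₂ v)) ∧ ∀ v, L (L₁ v) = L₂ v :=
  ambrose_conj h₁ h₂ p₁ p₂ L hL hrel

end Pool.Agent.Results.MP_35a9e6_gt.AmbroseConjecture
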